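import Pool.Agent.Y714.KF.Stm

set_option autoImplicit false
set_option linter.unusedSectionVars false

/-! Project KF: primitive vectors and bases (`bas`, `sup`, `supi`). -/

namespace Pool.Agent.Y421.KF

open NumberField FractionalIdeal Module Pool.Agent.Y714.KF
open scoped nonZeroDivisors

section

variable {K : Type} [Field K] [NumberField K]

theorem add_le' {p : ℕ} {I : FI K} {w w' : K} (u : ℤ) {y : K} (hy : y ∈ I)
    (hw : w = u * w' + p * y) : sp (p : K) * I + sp w ≤ sp (p : K) * I + sp w' := by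
  rw [← sup_eq_add, ← sup_eq_add]
  refine sup_le le_sup_left (sp_le.2 ?_)
  rw [hw, sup_eq_add]
  refine ((sp (p : K) * I + sp w' : FI K) : Submodule (𝓞 K) K).add_mem ?_ ?_
  · refine intCast_mul_mem u (sp_le.1 ?_)
    rw [← sup_eq_add]; exact le_sup_right
  · refine sp_le.1 ?_
    rw [sp_mul, ← sup_eq_add]
    refine le_trans ?_ le_sup_left
    gcongr
    exact sp_le.2 hy

theorem add_eq {p : ℕ} {I : FI K} {w w' : K} (u v : ℤ) {y z : K} (hy : y ∈ I) (hz : z ∈ I)
    (hw : w = u * w' + p * y) (hw' : w' = v * w + p * z) :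
    sp (p : K) * I + sp w = sp (p : K) * I + sp w' :=
  le_antisymm (add_le' u hy hw) (add_le' v hz hw')

theorem cop {p : ℕ} (hp : p.Prime) (a : ℤ) (ha : ¬ (p : ℤ) ∣ a) : ∃ v w : ℤ, v * a + w * p = 1 := by
  have hpi : Prime (p : ℤ) := Nat.prime_iff_prime_int.1 hp
  obtain ⟨u, v, huv⟩ := (hpi.irreducible.coprime_iff_not_dvd.2 ha)
  exact ⟨v, u, by linarith⟩

theorem Lt_smul_congr {P Q : K × K} {x : K} (hx : x ≠ 0) (h : Lt P = Lt Q) :
    Lt (x • P) = Lt (x • Q) := by
  ext y
  rw [mem_Lt_smul hx, mem_Lt_smul hx, h]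

theorem bas : S_BAS K := by
  intro p hp m I P hP hI ⟨x, hx, hx', hn⟩
  obtain ⟨i, j, rfl⟩ := mem_Lt.1 hx
  obtain ⟨hI1, hI2⟩ := ct_le.1 hI
  by_cases hi : (p : ℤ) ∣ i
  · have hj : ¬ (p : ℤ) ∣ j := by
      intro hj
      obtain ⟨i', rfl⟩ := hi
      obtain ⟨j', rfl⟩ := hj
      exact hx' ⟨(i' : K) * P.1 + (j' : K) * P.2, mem_Lt.2 ⟨i', j', rfl⟩, by push_cast; ring⟩
    obtain ⟨i', rfl⟩ := hi
    obtain ⟨v, w, hvw⟩ := cop hp j hj
    refine ⟨P.2, P.1, ?_, ?_⟩
    · have := Lt_glz 0 1 1 0 (Or.inr (by norm_num)) P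
      rw [← this]
      congr 1
      simp [glz]
    · rw [← hn]
      congr 1
      refine (add_eq j v (y := (i' : K) * P.1) (z := (w : K) * P.2 - ((v * i' : ℤ) : K) * P.1)
        (intCast_mul_mem _ hI1) ?_ ?_ ?_).symm
      · exact ((I : FI K) : Submodule (𝓞 K) K).sub_mem (intCast_mul_mem _ hI2)
          (intCast_mul_mem _ hI1)
      · push_cast; ring
      · have : (v : K) * j + w * p = 1 := by exact_mod_cast hvw
        push_cast
        linear_combination (-P.2) * this
  · obtain ⟨v, w, hvw⟩ := cop hp i hi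
    refine ⟨P.1 + ((j * v : ℤ) : K) * P.2, P.2, ?_, ?_⟩
    · have := Lt_glz 1 (j * v) 0 1 (Or.inl (by ring)) P
      rw [← this]
      congr 1
      simp [glz]
    · rw [← hn]
      congr 1
      have e1 : (v : K) * i + w * p = 1 := by exact_mod_cast hvw
      refine (add_eq i v (y := ((j * w : ℤ) : K) * P.2) (z := (w : K) * P.1)
        (intCast_mul_mem _ hI2) (intCast_mul_mem _ hI1) ?_ ?_).symm
      · push_cast
        linear_combination (-(j : K) * P.2) * e1
      · push_cast
        linear_combination (-P.1) * e1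

theorem sup_aux {p : ℕ} (hp : p.Prime) {x y : K} {A : K × K} (hA : Ind A) (h : Ind (x, y))
    (hL : Lt A = Lt (x, (p : K) * y)) :
    ∃ o : Option (Fin p), Lt (x, y) = Lt ((p : K)⁻¹ • nb p o A) := by
  have hpK : (p : K) ≠ 0 := by exact_mod_cast hp.ne_zero
  have hpq : (p : ℚ) ≠ 0 := by exact_mod_cast hp.ne_zero
  have h1 : Ind (x, (p : K) * y) := by
    intro a b hab
    have := h a (b * p) (by push_cast; linear_combination hab)
    exact ⟨this.1, (mul_eq_zero.1 this.2).resolve_right hpq⟩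
  obtain ⟨m, n, k, l, hdet, he⟩ := Lt_eq hA h1 hL
  have hx : x = m * A.1 + n * A.2 := congrArg Prod.fst he
  have hy : (p : K) * y = k * A.1 + l * A.2 := congrArg Prod.snd he
  have hxy : Lt (x, y) = Lt ((p : K)⁻¹ • ((p : K) * x, (p : K) * y)) := by
    congr 1
    ext
    · simp [hpK]
    · simp [hpK]
  rw [hxy]
  by_cases hk : (p : ℤ) ∣ k
  · obtain ⟨k', rfl⟩ := hk
    refine ⟨none, Lt_smul_congr (inv_ne_zero hpK) ?_⟩
    rw [← Lt_glz (p * n) m l k' (by
      rcases hdet with h | h
      · right; linarith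
      · left; linarith) (nb p none A)]
    congr 1
    refine Prod.ext ?_ ?_
    · simp only [glz, nb]; rw [hx]; push_cast; ring
    · simp only [glz, nb]; rw [hy]; push_cast; ring
  · obtain ⟨v, w, hvw⟩ := cop hp k hk
    have hp0 : (0 : ℤ) < p := by exact_mod_cast hp.pos
    set r : ℤ := (l * v) % p with hr
    have hr0 : 0 ≤ r := Int.emod_nonneg _ hp0.ne'
    have hrp : r < p := Int.emod_lt_of_pos _ hp0
    obtain ⟨t, ht⟩ : ∃ t, l * v = r + p * t :=
      ⟨l * v / p, by rw [hr]; exact (Int.emod_add_mul_ediv _ _).symm⟩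
    have hrn : ((r.toNat : ℕ) : K) = (r : K) := by
      have : ((r.toNat : ℕ) : ℤ) = r := Int.toNat_of_nonneg hr0
      exact_mod_cast congrArg (Int.cast : ℤ → K) this
    have hlt : r.toNat < p := by
      have : ((r.toNat : ℕ) : ℤ) = r := Int.toNat_of_nonneg hr0
      omega
    obtain ⟨s, hs⟩ : ∃ s : ℤ, l = k * r + p * s := ⟨k * t + l * w, by
      have : l = l * (v * k + w * p) := by rw [hvw, mul_one]
      calc l = l * (v * k + w * p) := this
        _ = k * (l * v) + p * (l * w) := by ring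
        _ = _ := by rw [ht]; ring⟩
    refine ⟨some ⟨r.toNat, hlt⟩, Lt_smul_congr (inv_ne_zero hpK) ?_⟩
    rw [← Lt_glz (p * m) (n - m * r) k s (by
      rw [hs] at hdet
      rcases hdet with h | h
      · left; linarith
      · right; linarith) (nb p (some ⟨r.toNat, hlt⟩) A)]
    congr 1
    have hsK : (l : K) = k * r + p * s := by exact_mod_cast congrArg (Int.cast : ℤ → K) hs
    refine Prod.ext ?_ ?_
    · simp only [glz, nb, hrn]; rw [hx]; push_cast; ring
    · simp only [glz, nb, hrn]; rw [hy, hsK]; ring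

theorem sup : S_SUP K := by
  intro p hp M₁
  set S := {M : Submodule ℤ K | ∃ x y : K, Ind (x, y) ∧ M = Lt (x, y) ∧
    Lt (x, (p : K) * y) = M₁} with hS
  rcases S.eq_empty_or_nonempty with h0 | ⟨M, x0, y0, hi0, -, hM0⟩
  · rw [h0]
    exact ⟨Set.finite_empty, by simp⟩
  have hpq : (p : ℚ) ≠ 0 := by exact_mod_cast hp.ne_zero
  have hA : Ind (x0, (p : K) * y0) := by
    intro a b hab
    have := hi0 a (b * p) (by push_cast; linear_combination hab)
    exact ⟨this.1, (mul_eq_zero.1 this.2).resolve_right hpq⟩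
  have hsub : S ⊆ Set.range fun o : Option (Fin p) =>
      Lt ((p : K)⁻¹ • nb p o (x0, (p : K) * y0)) := by
    rintro N ⟨x, y, hi, rfl, hN⟩
    obtain ⟨o, ho⟩ := sup_aux hp hA hi (hM0.trans hN.symm)
    exact ⟨o, ho.symm⟩
  have hfin := Set.finite_range fun o : Option (Fin p) =>
    Lt ((p : K)⁻¹ • nb p o (x0, (p : K) * y0))
  refine ⟨hfin.subset hsub, (Set.ncard_le_ncard hsub hfin).trans ?_⟩
  rw [← Set.image_univ]
  refine (Set.ncard_image_le Set.finite_univ).trans ?_
  rw [Set.ncard_univ, Nat.card_eq_fintype_card, Fintype.card_option, Fintype.card_fin]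

theorem supi : S_SUPI K := by
  intro p hp I x y x' y' h h' hI hI' hL hne
  have hpK : (p : K) ≠ 0 := by exact_mod_cast hp.ne_zero
  have hpq : (p : ℚ) ≠ 0 := by exact_mod_cast hp.ne_zero
  have hi : ∀ x y : K, Ind (x, y) → Ind (x, (p : K) * y) := by
    intro x y h a b hab
    have := h a (b * p) (by push_cast; linear_combination hab)
    exact ⟨this.1, (mul_eq_zero.1 this.2).resolve_right hpq⟩
  obtain ⟨m, n, k, l, hdet, he⟩ := Lt_eq (hi x y h) (hi x' y' h') hL
  have hx : x' = m * x + n * ((p : K) * y) := congrArg Prod.fst he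
  have hy : (p : K) * y' = k * x + l * ((p : K) * y) := congrArg Prod.snd he
  obtain ⟨h1, h2⟩ := ct_le.1 hI
  obtain ⟨h1', h2'⟩ := ct_le.1 hI'
  by_cases hk : (p : ℤ) ∣ k
  · obtain ⟨k', rfl⟩ := hk
    have hy' : y' = k' * x + l * y := by
      apply mul_left_cancel₀ hpK
      rw [hy]; push_cast; ring
    have := Lt_glz m (n * p) k' l (by
      rcases hdet with h | h
      · left; linarith
      · right; linarith) (x, y)
    rw [← this]
    congr 1
    refine Prod.ext ?_ ?_
    · simp only [glz]; rw [hx]; push_cast; ring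
    · simp only [glz]; rw [hy']
  · exfalso
    obtain ⟨u, v, huv⟩ := cop hp k hk
    have e1 : (u : K) * k + v * p = 1 := by exact_mod_cast huv
    apply hne
    have hz : x = (p : K) * (u * (y' - l * y) + v * x) := by
      linear_combination (-x) * e1 - (u : K) * hy
    have hzI : (u : K) * (y' - l * y) + v * x ∈ (I : FI K) := by
      refine ((I : FI K) : Submodule (𝓞 K) K).add_mem (intCast_mul_mem u ?_)
        (intCast_mul_mem v h1)
      exact ((I : FI K) : Submodule (𝓞 K) K).sub_mem h2' (intCast_mul_mem l h2)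
    have hle : sp x ≤ sp (p : K) * (I : FI K) := by
      conv_lhs => rw [hz]
      rw [sp_mul]
      gcongr
      exact sp_le.2 hzI
    rw [← sup_eq_add]
    exact sup_eq_left.2 hle

end

end Pool.Agent.Y421.KF
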